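import Pool.Agent.D0H34.KG.Stm
import Pool.Agent.H58P.Rad

set_option autoImplicit false

/-! Project KG (helper34), module UNR: rational primes which are independent modulo powers. -/

namespace Pool.Agent.D0H49.KG

open NumberField IsDedekindDomain Pool.Agent.D0H34.KG WithZero

theorem exists_val {K : Type} [Field K] [NumberField K] (q : ℕ) (hq : q.Prime)
    (h : ¬ (q : ℤ) ∣ discr K) : ∃ v : HeightOneSpectrum (𝓞 K),
      v.valuation K (q : K) = exp (-1 : ℤ) ∧
      ∀ p : ℕ, p.Prime → p ≠ q → v.valuation K (p : K) = 1 := by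
  have hq' : Prime (q : ℤ) := Nat.prime_iff_prime_int.mp hq
  have hmax : (Ideal.span {(q : ℤ)}).IsMaximal :=
    ((Ideal.span_singleton_prime hq'.ne_zero).mpr hq').isMaximal
      (by rw [Ne, Ideal.span_singleton_eq_bot]; exact hq'.ne_zero)
  obtain ⟨P, hP, hlo⟩ := Ideal.exists_maximal_ideal_liesOver_of_isIntegral (S := 𝓞 K)
    (Ideal.span {(q : ℤ)})
  have hmem : ((q : ℤ) : 𝓞 K) ∈ P := (Ideal.liesOver_span_iff hP.ne_top hq').mp hlo
  have hmem' : (q : 𝓞 K) ∈ P := by
    rw [Int.cast_natCast] at hmem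
    exact hmem
  have hq0 : (q : 𝓞 K) ≠ 0 := by exact_mod_cast hq.ne_zero
  have hPbot : P ≠ ⊥ := by
    rintro rfl
    exact hq0 (Ideal.mem_bot.mp hmem')
  let v : HeightOneSpectrum (𝓞 K) := ⟨P, hP.isPrime, hPbot⟩
  have hval : ∀ n : ℕ, v.valuation K (n : K) = v.intValuation (n : 𝓞 K) := by
    intro n
    have h : v.valuation K (algebraMap (𝓞 K) K (n : 𝓞 K)) = v.intValuation (n : 𝓞 K) :=
      v.valuation_of_algebraMap _
    rwa [map_natCast (algebraMap (𝓞 K) K)] at h
  refine ⟨v, ?_, ?_⟩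
  · rw [hval]
    have h1 : v.intValuation (q : 𝓞 K) ≤ exp (-((1 : ℕ) : ℤ)) := by
      rw [v.intValuation_le_pow_iff_mem, pow_one]
      exact hmem'
    have h2 : ¬ v.intValuation (q : 𝓞 K) ≤ exp (-((2 : ℕ) : ℤ)) := by
      rw [v.intValuation_le_pow_iff_dvd]
      intro h3
      have h4 := Pool.Agent.H58P.squarefree_span q hq h
      have h5 := h4 v.asIdeal (by rw [← pow_two]; exact h3)
      exact hP.ne_top (Ideal.isUnit_iff.mp h5)
    rw [v.intValuation_if_neg hq0, exp_le_exp] at h1 h2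
    rw [v.intValuation_if_neg hq0]
    congr 1
    push_cast at h1 h2
    omega
  · intro p hp hpq
    rw [hval, v.intValuation_eq_one_iff]
    intro hpP
    have hcop : IsCoprime (p : ℤ) (q : ℤ) := by
      rw [Nat.isCoprime_iff_coprime]
      exact (Nat.coprime_primes hp hq).mpr hpq
    obtain ⟨a, b, hab⟩ := hcop
    apply hP.ne_top
    rw [Ideal.eq_top_iff_one]
    have h6 : (1 : 𝓞 K) = (a : 𝓞 K) * (p : 𝓞 K) + (b : 𝓞 K) * (q : 𝓞 K) := by
      have h7 := congrArg (fun z : ℤ => (z : 𝓞 K)) hab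
      push_cast at h7
      exact h7.symm
    rw [h6]
    exact P.add_mem (P.mul_mem_left _ hpP) (P.mul_mem_left _ hmem')

theorem t_UNR : S_UNR := by
  classical
  intro K _ _ B t
  -- the primes
  have hex : ∀ N : ℕ, ∃ p, N ≤ p ∧ p.Prime := fun N => Nat.exists_infinite_primes N
  have hinf : {p : ℕ | p.Prime ∧ max B (discr K).natAbs < p}.Infinite := by
    rw [Set.infinite_iff_exists_gt]
    intro a
    obtain ⟨p, hp1, hp2⟩ := Nat.exists_infinite_primes (max (a + 1) (max B (discr K).natAbs + 1))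
    exact ⟨p, ⟨hp2, lt_of_lt_of_le (Nat.lt_succ_self _) ((le_max_right _ _).trans hp1)⟩,
      lt_of_lt_of_le (Nat.lt_succ_self _) ((le_max_left _ _).trans hp1)⟩
  let q : Fin t → ℕ := fun i => (hinf.natEmbedding _ i : ℕ)
  have hqm : ∀ i, (q i).Prime ∧ max B (discr K).natAbs < q i := fun i =>
    (hinf.natEmbedding _ i).2
  have hinj : Function.Injective q := by
    intro i j hij
    exact Fin.ext ((hinf.natEmbedding _).injective (Subtype.ext hij))
  refine ⟨q, hinj, fun i => ⟨(hqm i).1, lt_of_le_of_lt (le_max_left _ _) (hqm i).2⟩, ?_⟩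
  intro ℓ hℓ e y hy i
  have hnd : ¬ ((q i : ℕ) : ℤ) ∣ discr K := by
    intro hdvd
    have h1 : q i ∣ (discr K).natAbs := by
      rwa [← Int.natCast_dvd]
    have h2 : (discr K).natAbs ≠ 0 := Int.natAbs_ne_zero.mpr (discr_ne_zero K)
    have h3 := Nat.le_of_dvd (Nat.pos_of_ne_zero h2) h1
    have h4 := (hqm i).2
    have h5 := le_max_right B (discr K).natAbs
    omega
  obtain ⟨v, hv1, hv2⟩ := exists_val (K := K) (q i) (hqm i).1 hnd
  have h1 := congrArg (v.valuation K) hy
  rw [map_prod, map_pow] at h1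
  have h2 : ∏ j, v.valuation K ((q j : K) ^ e j) = exp (-(e i)) := by
    rw [Finset.prod_eq_single i]
    · rw [map_zpow₀, hv1, ← exp_zsmul]
      congr 1
      simp
    · intro j _ hj
      rw [map_zpow₀, hv2 (q j) (hqm j).1 (fun h => hj (hinj h)), one_zpow]
    · intro h
      exact absurd (Finset.mem_univ _) h
  rw [h2] at h1
  have hy0 : v.valuation K y ≠ 0 := by
    intro h0
    rw [h0, zero_pow hℓ.ne_zero] at h1
    exact exp_ne_zero h1
  obtain ⟨k, hk⟩ : ∃ k : ℤ, v.valuation K y = exp k := ⟨log (v.valuation K y), (exp_log hy0).symm⟩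
  rw [hk, ← exp_nsmul] at h1
  have h3 := exp_injective h1
  rw [nsmul_eq_mul] at h3
  exact ⟨-k, by linarith⟩

end Pool.Agent.D0H49.KG
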